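import Pool.Agent.Helper27.PB.Goals
import Pool.Agent.Helper77.Eps.Calc
import Pool.Agent.Helper40.Eps.Step
import Pool.Agent.Helper52.ZZ.CSQ
import Pool.Agent.Helper52.ZZ.KER
import Pool.Agent.Helper52.ZZ.GSB

/-! # Packet SQRV: the square of the chain sum, reference scale of the corner -/

open scoped ENNReal
open Finset

namespace Pool.Agent.Helper58.PB

open Pool.Agent.Helper92.Eps hiding Bas
open Pool.Agent.Helper99.ZZ
open Pool.Agent.Helper27.PB
open Pool.Agent.Helper77.Eps (iv_true iv_false)

section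

variable {B : Type} {D : ℕ} {A : Alph B D}

theorem sl_pfx (r : ℕ) (l : List B) : sl A r l <+: l := by
  unfold sl
  split_ifs with h
  · exact List.nil_prefix
  · exact Step.fpp_prefix r l

theorem stp_sl (hC : Calc A) {r : ℕ} {l : List B} (hl : r = 0 ∨ r < A.H l) :
    Stp A r (sl A r l) := by
  by_cases h0 : r = 0
  · subst h0
    exact Or.inl ⟨rfl, by simp [sl]⟩
  · have h1 : 1 ≤ r := Nat.one_le_iff_ne_zero.2 h0
    rcases hl with h3 | h3
    · omega
    refine Or.inr ⟨h1, ?_⟩
    unfold sl
    rw [if_neg h0]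
    exact (hC.fpp_str r l h3).1

theorem sl_app {r : ℕ} {p : List B} (hp : Stp A r p) (t : List B) : sl A r (p ++ t) = p := by
  unfold sl
  rcases hp with ⟨h0, h1⟩ | ⟨h0, h1⟩
  · rw [if_pos h0, h1]
  · rw [if_neg (by omega)]
    exact Step.fpp_app h1 t

end

theorem SQRV' (hCSQ : CSQ_stmt) (hKER : KER_stmt) (hGSB : GSB_stmt) : SQRV_stmt := by
  intro B Δ D A E rb ok dep hC hE Θ hΘ hΘ' ds
  have hG := hGSB A hC
  induction ds with
  | nil =>
    intro r l _ _
    simp [ZS, GV]
  | cons d ds ih =>
    intro r l hds hl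
    obtain ⟨hd, hds'⟩ := hds
    -- the sums
    set g : Bool → List B → ℝ≥0∞ := fun a l' => iv (ok d l') (A.W l' *
      (ker A E (Nat.log 2 r) Θ a r (sl A r (rb l)) (sl A r l') *
        GV A E rb ok dep Θ ds (!a) (dep d) (sl A (dep d) (rb l')))) with hg
    have hgsum : ∀ a, ∑' l', g a l' ≤ GV A E rb ok dep Θ (d :: ds) a r (sl A r (rb l)) := by
      intro a
      set φ : List B → ℝ≥0∞ := fun l' => iv (ok d l')
        (ker A E (Nat.log 2 r) Θ a r (sl A r (rb l)) (sl A r l') *
          GV A E rb ok dep Θ ds (!a) (dep d) (sl A (dep d) (rb l'))) with hφ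
      have h1 : ∑' l', g a l' ≤ ∑' l' : List B, iv (0 < r → r < A.H l') (A.W l' * φ l') := by
        refine ENNReal.tsum_le_tsum fun l' => ?_
        simp only [hg, hφ]
        by_cases h : ok d l'
        · have h2 := (hd l' h).1
          rw [iv_true h, iv_true h, iv_true (fun _ => by omega)]
        · rw [iv_false h]
          exact zero_le
      refine h1.trans ?_
      rw [hG.2.1 r φ]
      simp only [GV]
      refine hG.2.2.2.1 r _ _ fun p hp _ => ?_
      unfold RF
      rw [← ENNReal.tsum_mul_left]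
      refine ENNReal.tsum_le_tsum fun t => ?_
      simp only [hφ]
      rw [sl_app hp t]
      by_cases h : ok d (p ++ t)
      · rw [iv_true h, iv_true h]
        exact le_of_eq (by ring)
      · rw [iv_false h, mul_zero]
        exact zero_le
    have hfg : ∀ l' : List B, (iv (ok d l' ∧ E r (rb l) l')
        (A.W l' * ZS A E rb ok dep ds (dep d) l')) ^ 2 ≤ g true l' * g false l' := by
      intro l'
      by_cases h : ok d l' ∧ E r (rb l) l'
      swap
      · rw [iv_false h]
        simp
      have h2 := hd l' h.1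
      have h3 := ih (dep d) l' hds' h2.2
      have h4 : E r (sl A r (rb l)) (sl A r l') :=
        hE.pre2 (sl_pfx r l') (hE.pre1 (sl_pfx r (rb l)) h.2)
      have h5 := hKER A E hE (Nat.log 2 r) Θ hΘ hΘ' r (sl A r (rb l)) (sl A r l') (stp_sl hC hl)
        (stp_sl hC h2.1)
      rw [iv_true h4] at h5
      rw [iv_true h]
      simp only [hg]
      rw [iv_true h.1, iv_true h.1]
      simp only [Bool.not_true, Bool.not_false]
      calc (A.W l' * ZS A E rb ok dep ds (dep d) l') ^ 2 =
            A.W l' ^ 2 * (1 * ZS A E rb ok dep ds (dep d) l' ^ 2) := by ring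
        _ ≤ A.W l' ^ 2 * ((ker A E (Nat.log 2 r) Θ true r (sl A r (rb l)) (sl A r l') *
              ker A E (Nat.log 2 r) Θ false r (sl A r (rb l)) (sl A r l')) *
            (GV A E rb ok dep Θ ds true (dep d) (sl A (dep d) (rb l')) *
              GV A E rb ok dep Θ ds false (dep d) (sl A (dep d) (rb l')))) := by
            gcongr
        _ = _ := by ring
    have hcs := hCSQ _ (g true) (g false) hfg
    have hZ : ZS A E rb ok dep (d :: ds) r l = ∑' l' : List B, iv (ok d l' ∧ E r (rb l) l')
        (A.W l' * ZS A E rb ok dep ds (dep d) l') := rfl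
    rw [hZ]
    exact hcs.trans (mul_le_mul' (hgsum true) (hgsum false))

theorem SQRV : SQRV_stmt :=
  SQRV' Pool.Agent.Helper52.ZZ.CSQ Pool.Agent.Helper52.ZZ.KER Pool.Agent.Helper52.ZZ.GSB

end Pool.Agent.Helper58.PB
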